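import Pool.Agent.X35.OR.Dens
import Pool.Agent.X35.OR.DC

/-!
# Weakly ordinary reduction of all Calabi–Yau double covers `w² = f + m g²` of projective spaces, for all integers `m` near a thin sequence:
at least half of the primes at which the hypersurface `g = 0` is weakly ordinary
-/

set_option autoImplicit false

namespace Pool.Agent.Results.MP_adc574_ag.DoubleCoversNearSequences

open Finset MvPolynomial

/-- The number of the solutions `(x, w)` modulo `p` of `w ^ 2 = f (x_1, ..., x_n) + m g (x_1, ..., x_n) ^ 2`. If `f` is a form of degree `2 n` and `g` a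
form of degree `n`, it is `1 + (p - 1) #X (𝔽_p)`, where `X : w ^ 2 = f + m g ^ 2` is the double cover of `ℙ ^ (n - 1)`. -/
noncomputable def points (p : ℕ) {n : ℕ} (f g : MvPolynomial (Fin n) ℤ) (m : ℤ) : ℕ :=
  Nat.card {P : (Fin n → ZMod p) × ZMod p // P.2 ^ 2 = aeval P.1 f + (m : ZMod p) * (aeval P.1 g) ^ 2}

/-- The number of the solutions modulo `p` of `g (x_1, ..., x_n) = 0`. If `g` is a form of degree `n`, it is `1 + (p - 1) #Y (𝔽_p)` for the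
hypersurface `Y : g = 0` in `ℙ ^ (n - 1)`. -/
noncomputable def zeros (p : ℕ) {n : ℕ} (g : MvPolynomial (Fin n) ℤ) : ℕ :=
  Nat.card {x : Fin n → ZMod p // aeval x g = 0}

/-- **Weakly ordinary primes of double covers near sequences.** Let `δ > 0` and `A` be given. There are `κ > 0` and `C > 0` such that for all
`v_i ≥ 1` with `∑ v_i ^ (-t) < ∞` for all `t > τ` (`τ ≥ 0`), all `θ < 1` and all choices of at most `x ^ A` sets `P ∈ H x` of
integers for every `x ≥ 2` (for instance the residue classes to all moduli `q ≤ x ^ B`) there is a set `E` of reals of Hausdorff dimension at most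
`(1 - κ + τ) / (1 - θ)` such that for every real `α > 0` outside `E` the following holds for ALL `n ≥ 1` and ALL polynomials `f`, `g` in `n`
variables with integral coefficients.

There is `i₀` such that for all `i ≥ i₀`, ALL integers `m` with `||m| - α v_i| ≤ v_i ^ θ`, ALL integers `x` with
`(log |m|) ^ C ≤ x ≤ |m| ^ κ` and ALL `P ∈ H x`: the number of the odd primes `p ≤ x` in `P` such that neither the number of the
solutions of `g = 0` nor that of `w ^ 2 = f + m g ^ 2` modulo `p` is divisible by `p` is at least half of the number of the odd primes `p ≤ x`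
in `P` such that the number of the solutions of `g = 0` is not divisible by `p`, up to an error of at most `x ^ (1 / 2 + δ)`. -/
theorem result (δ A : ℝ) (hδ : 0 < δ) : ∃ κ C : ℝ, 0 < κ ∧ 0 < C ∧
    ∀ (v : ℕ → ℝ) (τ θ : ℝ), (∀ i, 1 ≤ v i) → 0 ≤ τ → θ < 1 → (∀ t : ℝ, τ < t → Summable (fun i => v i ^ (-t))) →
    ∀ (H : ℕ → Finset (Set ℕ)), (∀ x, 2 ≤ x → ((H x).card : ℝ) ≤ (x : ℝ) ^ A) →
    ∃ E : Set ℝ, dimH E ≤ ENNReal.ofReal ((1 - κ + τ) / (1 - θ)) ∧ ∀ α : ℝ, 0 < α → α ∉ E →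
      ∀ (n : ℕ) (f g : MvPolynomial (Fin (n + 1)) ℤ), ∃ i₀ : ℕ,
      ∀ i : ℕ, i₀ ≤ i → ∀ m : ℤ, |(|(m : ℝ)|) - α * v i| ≤ v i ^ θ →
        ∀ x : ℕ, Real.log |(m : ℝ)| ^ C ≤ x → (x : ℝ) ≤ |(m : ℝ)| ^ κ → ∀ P ∈ H x,
          1 / 2 * ({p : ℕ | p ≤ x ∧ p.Prime ∧ p ≠ 2 ∧ p ∈ P ∧ ¬ p ∣ zeros p g}.ncard : ℝ) - (x : ℝ) ^ (1 / 2 + δ) ≤
            ({p : ℕ | p ≤ x ∧ p.Prime ∧ p ≠ 2 ∧ p ∈ P ∧ ¬ p ∣ zeros p g ∧ ¬ p ∣ points p f g m}.ncard : ℝ) := by
  classical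
  obtain ⟨κ, C, hκ, hC, HH⟩ := Pool.Agent.X35.OR.dens_seq δ A hδ
  refine ⟨κ, C, hκ, hC, fun v τ θ hv1 hτ hθ hv H hH => ?_⟩
  have hcnt : ∀ k : ℕ, Countable (MvPolynomial (Fin (k + 1)) ℤ) := fun k => Pool.Agent.X35.GV.countable_mv (k + 1)
  have hcnt2 : Countable (Σ k : ℕ, MvPolynomial (Fin (k + 1)) ℤ × MvPolynomial (Fin (k + 1)) ℤ) := by
    have : ∀ k : ℕ, Countable (MvPolynomial (Fin (k + 1)) ℤ × MvPolynomial (Fin (k + 1)) ℤ) := fun k => by
      have := hcnt k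
      infer_instance
    infer_instance
  obtain ⟨E, hE1, hE2⟩ := HH v τ θ hv1 hτ hθ hv H hH (Σ k : ℕ, MvPolynomial (Fin (k + 1)) ℤ × MvPolynomial (Fin (k + 1)) ℤ)
    (fun c p => ¬ p ∣ Pool.Agent.X35.OR.zrs p c.2.2) (fun c p m => p ∣ Pool.Agent.X35.OR.pts p c.2.1 c.2.2 m) (fun _ => 1 / 2) (fun _ => 0)
    (fun _ => ⟨by norm_num, le_rfl⟩)
    (by
      intro c p hp h2 _ m m' h
      rw [Pool.Agent.X35.OR.pts_mod p c.2.1 c.2.2 m m' h])
    (by
      intro c p hp h2 hR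
      have hf : Fact p.Prime := ⟨hp⟩
      have h4 : ((p / 2 : ℕ) : ℝ) ≤ (p : ℝ) / 2 := Nat.cast_div_le
      have h5 := Pool.Agent.X35.OR.bad_dc (p := p) h2 (by omega : 1 ≤ c.1 + 1) c.2.1 c.2.2 hR
      have h6 : (((range p).filter (fun m : ℕ => p ∣ Pool.Agent.X35.OR.pts p c.2.1 c.2.2 (m : ℤ))).card : ℝ) ≤ ((p / 2 : ℕ) : ℝ) := by
        exact_mod_cast h5
      have h7 : (((range p).filter (fun m : ℕ => p ∣ Pool.Agent.X35.OR.pts p c.2.1 c.2.2 (m : ℤ))).card : ℝ) ≤ 1 / 2 * p + 0 := by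
        refine le_trans h6 ?_
        linarith
      convert h7)
  refine ⟨E, hE1, fun α hα hαE n f g => ?_⟩
  obtain ⟨i₀, hi₀⟩ := hE2 α hα hαE ⟨n, f, g⟩
  refine ⟨i₀, fun i hi m hm x hx1 hx2 P hP => ?_⟩
  have hmain := hi₀ i hi m hm x hx1 hx2 P hP
  have e1 : {p : ℕ | p ≤ x ∧ p.Prime ∧ p ≠ 2 ∧ p ∈ P ∧ ¬ p ∣ zeros p g} =
      ((Pool.Agent.X35.OR.sel x P (fun p => ¬ p ∣ Pool.Agent.X35.OR.zrs p g) : Finset ℕ) : Set ℕ) := by
    ext p
    rw [mem_coe, Pool.Agent.X35.OR.mem_sel]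
    rfl
  have e2 : {p : ℕ | p ≤ x ∧ p.Prime ∧ p ≠ 2 ∧ p ∈ P ∧ ¬ p ∣ zeros p g ∧ ¬ p ∣ points p f g m} =
      ((Pool.Agent.X35.OR.sel x P (fun p => ¬ p ∣ Pool.Agent.X35.OR.zrs p g ∧ ¬ p ∣ Pool.Agent.X35.OR.pts p f g m) : Finset ℕ) : Set ℕ) := by
    ext p
    rw [mem_coe, Pool.Agent.X35.OR.mem_sel]
    rfl
  rw [e1, e2, Set.ncard_coe_finset, Set.ncard_coe_finset]
  norm_num at hmain ⊢
  linarith

end Pool.Agent.Results.MP_adc574_ag.DoubleCoversNearSequences
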