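import Pool.Agent.X22.ND10
import Pool.Agent.X22.DC

/-!
# Weakly ordinary reduction of Calabi–Yau double covers of projective spaces at half of the primes, for almost all members of arbitrarily thin families

Nothing is used besides Mathlib in the statement.
-/

set_option autoImplicit false

namespace Pool.Agent.Results.MP_adc574_ag.FewDigitCalabiYau

open Finset MvPolynomial

/-- The number of the solutions `(x, w)` modulo `p` of `w ^ 2 = f (x_1, ..., x_n) + m (x_1 ⋯ x_n) ^ 2`. If `f` is a form of degree `2 n`, it is `1 + (p - 1) #X (𝔽_p)`, where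
`X : w ^ 2 = f + m (x_1 ⋯ x_n) ^ 2` is the double cover of `ℙ ^ (n - 1)`. -/
noncomputable def points (p : ℕ) {n : ℕ} (f : MvPolynomial (Fin n) ℤ) (m : ℕ) : ℕ :=
  Nat.card {P : (Fin n → ZMod p) × ZMod p // P.2 ^ 2 = aeval P.1 f + (m : ZMod p) * (∏ i, P.1 i) ^ 2}

/-- The digit number `i` (counted from the right, beginning with `0`) of `n` in base `b`. -/
def digit (b i n : ℕ) : ℕ := n / b ^ i % b

/-- The number which arises from the number `N` with at most `K` digits in base `b`, if for every `i ∈ S`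
the digit number `i` is replaced by `f i`. -/
def change (b K N : ℕ) (f : ℕ → ℕ) (S : Finset ℕ) : ℕ :=
  ∑ i ∈ range K, (if i ∈ S then f i else digit b i N) * b ^ i

open Classical in
/-- The number of the choices of `r` of `K` positions for which the number obtained by
changing the digits of `N` at the chosen positions (according to `f`) does not have the property `E`. -/
noncomputable def exceptions (b K r N : ℕ) (f : ℕ → ℕ) (E : ℕ → Prop) : ℕ :=
  ((powersetCard r (range K)).filter (fun S => ¬ E (change b K N f S))).card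

open Pool.Agent.X22.ND (op mem_op density_one)
open Pool.Agent.X22.DC (card_dc)

section
variable {p : ℕ} [hf : Fact p.Prime] {n : ℕ}

lemma sum_top (h2 : p ≠ 2) : ∑ x : Fin n → ZMod p, ((∏ i, x i) ^ 2) ^ (p / 2) = (-1 : ZMod p) ^ n := by
  have hp2 : 2 * (p / 2) = p - 1 := by
    have := hf.out.eq_two_or_odd
    omega
  have h1 : ∀ x : Fin n → ZMod p, ((∏ i, x i) ^ 2) ^ (p / 2) = ∏ i, x i ^ (p - 1) := by
    intro x
    rw [← pow_mul, hp2, ← prod_pow]
  have h3 : ∑ t : ZMod p, t ^ (p - 1) = (-1 : ZMod p) := by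
    have h4 : ∀ t : ZMod p, t ^ (p - 1) = if t = 0 then 0 else 1 := by
      intro t
      split_ifs with h0
      · rw [h0, zero_pow]
        have := hf.out.one_lt
        omega
      · exact ZMod.pow_card_sub_one_eq_one h0
    rw [sum_congr rfl (fun t _ => h4 t), ← sum_filter_add_sum_filter_not univ (fun t : ZMod p => t = 0)]
    rw [sum_congr rfl (g := fun _ => (0 : ZMod p)) (fun t ht => by rw [if_pos (mem_filter.1 ht).2]), sum_const_zero, zero_add,
      sum_congr rfl (g := fun _ => (1 : ZMod p)) (fun t ht => by rw [if_neg (mem_filter.1 ht).2]), sum_const, nsmul_eq_mul, mul_one]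
    have h5 : (univ.filter (fun t : ZMod p => ¬ t = 0)).card = p - 1 := by
      rw [filter_ne', card_erase_of_mem (mem_univ _), card_univ, ZMod.card]
    rw [h5, Nat.cast_sub hf.out.one_lt.le]
    simp
  have h6 : ∏ _i : Fin n, ∑ t : ZMod p, t ^ (p - 1) = ∑ x : Fin n → ZMod p, ∏ i, x i ^ (p - 1) := by
    rw [prod_univ_sum, Fintype.piFinset_univ]
  rw [sum_congr rfl (fun x _ => h1 x), ← h6, h3, prod_const, card_univ, Fintype.card_fin]

/-- at most half of the residue classes are bad -/
lemma bad_card (h2 : p ≠ 2) (hn : 1 ≤ n) (f : MvPolynomial (Fin n) ℤ) (D : DecidablePred fun m => p ∣ points p f m) :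
    (@Finset.filter ℕ (fun m => p ∣ points p f m) D (range p)).card ≤ p / 2 := by
  have h3 : ringChar (ZMod p) ≠ 2 := by
    rw [ZMod.ringChar_zmod_n]
    exact h2
  obtain ⟨Q, hQ⟩ : ∃ Q : Polynomial (ZMod p), Q = ∑ x : Fin n → ZMod p,
      (Polynomial.C (aeval x f) + Polynomial.C ((∏ i, x i) ^ 2) * Polynomial.X) ^ (p / 2) := ⟨_, rfl⟩
  have hdeg1 : ∀ x : Fin n → ZMod p, (Polynomial.C (aeval x f) + Polynomial.C ((∏ i, x i) ^ 2) * Polynomial.X : Polynomial (ZMod p)).natDegree ≤ 1 := by
    intro x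
    rw [add_comm]
    exact Polynomial.natDegree_linear_le
  have hdeg : Q.natDegree ≤ p / 2 := by
    rw [hQ]
    apply Polynomial.natDegree_sum_le_of_forall_le
    intro x _
    refine (Polynomial.natDegree_pow_le_of_le (p / 2) (hdeg1 x)).trans ?_
    rw [mul_one]
  have hcoef : Q.coeff (p / 2) = (-1) ^ n := by
    rw [hQ, Polynomial.finset_sum_coeff, ← sum_top (n := n) h2]
    apply sum_congr rfl
    intro x _
    have := Polynomial.coeff_pow_of_natDegree_le (hdeg1 x) (m := p / 2)
    rw [mul_one] at this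
    rw [this]
    congr 1
    rw [Polynomial.coeff_add, Polynomial.coeff_C, if_neg one_ne_zero, Polynomial.coeff_C_mul, Polynomial.coeff_X_one, mul_one, zero_add]
  have hQ0 : Q ≠ 0 := by
    intro h0
    rw [h0, Polynomial.coeff_zero] at hcoef
    exact pow_ne_zero n (neg_ne_zero.2 one_ne_zero) hcoef.symm
  have hev : ∀ m : ℕ, ((points p f m : ℕ) : ZMod p) = Q.eval (m : ZMod p) := by
    intro m
    have e1 := card_dc h3 (Fin n → ZMod p) (fun _ => True) (fun x => aeval x f + (m : ZMod p) * (∏ i, x i) ^ 2)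
    have e2 : Nat.card {Q : (Fin n → ZMod p) × ZMod p // True ∧ Q.2 ^ 2 = aeval Q.1 f + (m : ZMod p) * (∏ i, Q.1 i) ^ 2} = points p f m := by
      unfold points
      simp only [true_and]
    rw [e2] at e1
    have e3 : Nat.card {x : Fin n → ZMod p // True} = p ^ n := by
      rw [Nat.card_eq_fintype_card, Fintype.card_subtype]
      simp
    rw [e3] at e1
    have e4 := congrArg (fun z : ℤ => (z : ZMod p)) e1
    push_cast at e4
    rw [CharP.cast_eq_zero (ZMod p) p, zero_pow (by omega), zero_add] at e4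
    rw [e4, hQ, Polynomial.eval_finset_sum, filter_true]
    apply sum_congr rfl
    intro x _
    rw [Polynomial.eval_pow, Polynomial.eval_add, Polynomial.eval_C, Polynomial.eval_mul, Polynomial.eval_C, Polynomial.eval_X,
      quadraticChar_eq_pow_of_char_ne_two' h3, ZMod.card, mul_comm (m : ZMod p)]
  have hsub : ((range p).filter (fun m => p ∣ points p f m)).image (fun m : ℕ => (m : ZMod p)) ⊆ Q.roots.toFinset := by
    intro z hz
    rw [mem_image] at hz
    obtain ⟨m, hm, rfl⟩ := hz
    rw [mem_filter] at hm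
    rw [Multiset.mem_toFinset, Polynomial.mem_roots hQ0, Polynomial.IsRoot.def, ← hev, ZMod.natCast_eq_zero_iff]
    exact hm.2
  have hinj : Set.InjOn (fun m : ℕ => (m : ZMod p)) ((range p).filter (fun m => p ∣ points p f m)) := by
    intro m hm m' hm' h
    rw [mem_coe, mem_filter, mem_range] at hm hm'
    have h5 := congrArg ZMod.val h
    simp only at h5
    rwa [ZMod.val_cast_of_lt hm.1, ZMod.val_cast_of_lt hm'.1] at h5
  rw [← card_image_of_injOn hinj]
  exact (card_le_card hsub).trans ((Multiset.toFinset_card_le _).trans ((Polynomial.card_roots' Q).trans hdeg))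

end

lemma points_mod (p : ℕ) {n : ℕ} (f : MvPolynomial (Fin n) ℤ) (m : ℕ) : points p f m = points p f (m % p) := by
  unfold points
  rw [ZMod.natCast_mod]

open Classical in
/-- **Weakly ordinary primes of Calabi–Yau double covers in thin families.** Let a base `b ≥ 2`, `δ > 0` and an integer `A ≥ 0` be given. There are `c > 0` and `y₀` such that for
all integers `r`, `K`, `y` with `2 r ≤ K` and `y ≥ y₀` the following holds.

Let `0 ≤ N < b ^ K` be an arbitrary integer, prescribe for every position `j` a digit `g j` different from the digit of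
`N` in base `b`, and let `H x` be for every `x` any set of at most `x ^ A` triples of an integer `n`, a polynomial `f` with integral coefficients in `n + 1` variables and a
set `P` of integers (for instance of the primes up to `x` in an arithmetic progression).
If one chooses `r` of the `K` positions and replaces the digits of `N` at these positions, then for all but at most a proportion
`1 / y ^ A` of the choices the number `m` obtained has the following property: for all integers `x` with
`y ≤ x ≤ exp (c r)` and all `(n, f, P) ∈ H x` the number of the odd primes `p ≤ x` in `P` for which the number of the solutions modulo `p` of `w ^ 2 = f (x_0, ..., x_n) + m (x_0 ⋯ x_n) ^ 2` is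
not divisible by `p` is at least half of the number of all odd primes `p ≤ x` in `P`, up to an error of at most `x ^ (1 / 2 + δ)`. -/
theorem result (b : ℕ) (hb : 2 ≤ b) (δ : ℝ) (hδ : 0 < δ) (A : ℕ) :
    ∃ c : ℝ, 0 < c ∧ ∃ y₀ : ℕ,
    ∀ K r y : ℕ, 2 * r ≤ K → y₀ ≤ y →
    ∀ N : ℕ, N < b ^ K → ∀ g : ℕ → ℕ, (∀ j, g j < b ∧ g j ≠ digit b j N) →
    ∀ (H : ℕ → Finset ((Σ n : ℕ, MvPolynomial (Fin (n + 1)) ℤ) × Finset ℕ)), (∀ x, (H x).card ≤ x ^ A) →
      (exceptions b K r N g (fun m => ∀ x : ℕ, y ≤ x → (x : ℝ) ≤ Real.exp (c * r) → ∀ q ∈ H x,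
        1 / 2 * (((range (x + 1)).filter (fun p => p ∈ q.2 ∧ p.Prime ∧ p ≠ 2)).card : ℝ) - (x : ℝ) ^ (1 / 2 + δ) ≤
          ((range (x + 1)).filter (fun p => (p ∈ q.2 ∧ p.Prime ∧ p ≠ 2) ∧ ¬ p ∣ points p q.1.2 m)).card) : ℝ) ≤
        1 / (y : ℝ) ^ A * (K.choose r : ℝ) := by
  obtain ⟨c, hc, y₀, h⟩ := density_one b hb δ hδ A A 0 le_rfl
  refine ⟨c, hc, y₀ + 2, fun K r y hrK hy N hN g hg H hH => ?_⟩
  have h2 := h K r y hrK (by omega) N hN g hg ((Σ n : ℕ, MvPolynomial (Fin (n + 1)) ℤ) × Finset ℕ) H (fun x _ => hH x)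
    (fun x q => (range (x + 1)).filter (fun p => p ∈ q.2 ∧ p.Prime ∧ p ≠ 2))
    (by
      intro x q p hp
      rw [mem_filter, mem_range] at hp
      rw [mem_op]
      exact ⟨by omega, hp.2.2.1, hp.2.2.2⟩)
    (fun q p m => p ∣ points p q.1.2 m) (fun q p m _ => by rw [points_mod]) (fun _ => 1 / 2) (fun _ => by norm_num)
    (by
      intro x _ q _ p hp
      rw [mem_filter] at hp
      have hf : Fact p.Prime := ⟨hp.2.2.1⟩
      have h4 : ((p / 2 : ℕ) : ℝ) ≤ (p : ℝ) / 2 := Nat.cast_div_le
      refine le_trans ((Nat.cast_le (α := ℝ)).2 (bad_card (p := p) hp.2.2.2 (by omega : 1 ≤ q.1.1 + 1) q.1.2 _)) ?_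
      linarith)
    (fun m => ∀ x : ℕ, y ≤ x → (x : ℝ) ≤ Real.exp (c * r) → ∀ q ∈ H x,
        1 / 2 * (((range (x + 1)).filter (fun p => p ∈ q.2 ∧ p.Prime ∧ p ≠ 2)).card : ℝ) - (x : ℝ) ^ (1 / 2 + δ) ≤
          ((range (x + 1)).filter (fun p => (p ∈ q.2 ∧ p.Prime ∧ p ≠ 2) ∧ ¬ p ∣ points p q.1.2 m)).card)
    (by
      intro m hm x hyx hxr q hq
      have h3 : (((((range (x + 1)).filter (fun p => p ∈ q.2 ∧ p.Prime ∧ p ≠ 2)).filter (fun p => p ∣ points p q.1.2 m)).card : ℕ) : ℝ) ≤
          1 / 2 * ((((range (x + 1)).filter (fun p => p ∈ q.2 ∧ p.Prime ∧ p ≠ 2)).card : ℕ) : ℝ) + (x : ℝ) ^ (1 / 2 + δ) := by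
        convert hm x hyx hxr q hq
      have h4 : (((range (x + 1)).filter (fun p => p ∈ q.2 ∧ p.Prime ∧ p ≠ 2)).filter (fun p => p ∣ points p q.1.2 m)).card +
          ((range (x + 1)).filter (fun p => (p ∈ q.2 ∧ p.Prime ∧ p ≠ 2) ∧ ¬ p ∣ points p q.1.2 m)).card =
          ((range (x + 1)).filter (fun p => p ∈ q.2 ∧ p.Prime ∧ p ≠ 2)).card := by
        rw [← filter_filter (fun p => p ∈ q.2 ∧ p.Prime ∧ p ≠ 2) (fun p => ¬ p ∣ points p q.1.2 m)]
        exact card_filter_add_card_filter_not _
      have h5 : (((((range (x + 1)).filter (fun p => p ∈ q.2 ∧ p.Prime ∧ p ≠ 2)).filter (fun p => p ∣ points p q.1.2 m)).card : ℕ) : ℝ) +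
          ((((range (x + 1)).filter (fun p => (p ∈ q.2 ∧ p.Prime ∧ p ≠ 2) ∧ ¬ p ∣ points p q.1.2 m)).card : ℕ) : ℝ) =
          ((((range (x + 1)).filter (fun p => p ∈ q.2 ∧ p.Prime ∧ p ≠ 2)).card : ℕ) : ℝ) := by exact_mod_cast h4
      linarith)
  unfold exceptions
  exact h2

end Pool.Agent.Results.MP_adc574_ag.FewDigitCalabiYau
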