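import Pool.Agent.X35.OR.Box

/-!
# Weakly ordinary reduction of the products of the Calabi–Yau double covers `w_j² = f_j + m_j g_j²`, `j ≤ r`, for almost all vectors `m` of every box: at least `2 ^ (-r)`
of the primes at which all the hypersurfaces `g_j = 0` are weakly ordinary
-/

set_option autoImplicit false

namespace Pool.Agent.Results.MP_adc574_ag.ProductsInBoxes

open Finset MvPolynomial

/-- The number of the solutions `(x, w)` modulo `p` of `w ^ 2 = f (x_1, ..., x_n) + m g (x_1, ..., x_n) ^ 2`. If `f` is a form of degree `2 n` and `g` a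
form of degree `n`, it is `1 + (p - 1) #X (𝔽_p)`, where `X : w ^ 2 = f + m g ^ 2` is the double cover of `ℙ ^ (n - 1)`. -/
noncomputable def points (p : ℕ) {n : ℕ} (f g : MvPolynomial (Fin n) ℤ) (m : ℤ) : ℕ :=
  Nat.card {P : (Fin n → ZMod p) × ZMod p // P.2 ^ 2 = aeval P.1 f + (m : ZMod p) * (aeval P.1 g) ^ 2}

/-- The number of the solutions modulo `p` of `g (x_1, ..., x_n) = 0`. If `g` is a form of degree `n`, it is `1 + (p - 1) #Y (𝔽_p)` for the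
hypersurface `Y : g = 0` in `ℙ ^ (n - 1)`. -/
noncomputable def zeros (p : ℕ) {n : ℕ} (g : MvPolynomial (Fin n) ℤ) : ℕ :=
  Nat.card {x : Fin n → ZMod p // aeval x g = 0}

/-- **Weakly ordinary primes of products of double covers in boxes.** Let `r`, `δ > 0` and `A` be given. There are `κ > 0`, `C > 0` and `N₀` such that for all
`N ≥ N₀`, all integers `M_j`, all `L_j ≥ N` (`j ≤ r`) and all choices of at most `x ^ A` systems `(n, f, g, P) ∈ H x` of numbers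
`n_j ≥ 1`, polynomials `f_j`, `g_j` with integral coefficients in `n_j` variables (`j ≤ r`) and a set `P` of integers for every `x ≥ 2`, the following holds
for all but at most `N ^ (- κ) ∏ L_j` of the vectors `m` of integers with `M_j ≤ m_j < M_j + L_j` for all `j`.

For ALL integers `x` with `(log N) ^ C ≤ x ≤ N ^ κ` and ALL `(n, f, g, P) ∈ H x` the number of the odd primes `p ≤ x` in `P` such that for ALL `j` neither the
number of the solutions of `g_j = 0` nor that of `w ^ 2 = f_j + m_j g_j ^ 2` modulo `p` is divisible by `p` is at least `2 ^ (- r)` times the number of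
the odd primes `p ≤ x` in `P` such that for all `j` the number of the solutions of `g_j = 0` is not divisible by `p`, up to an error of at most
`x ^ (1 / 2 + δ)`. (The numbers of variables are written `n_j + 1`, `n_j ≥ 0`.) -/
theorem result (r : ℕ) (δ A : ℝ) (hδ : 0 < δ) : ∃ κ C : ℝ, 0 < κ ∧ 0 < C ∧ ∃ N₀ : ℕ, ∀ N : ℕ, N₀ ≤ N →
    ∀ (H : ℕ → Finset ((Σ n : Fin r → ℕ, ∀ j, MvPolynomial (Fin (n j + 1)) ℤ × MvPolynomial (Fin (n j + 1)) ℤ) × Set ℕ)),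
    (∀ x, 2 ≤ x → ((H x).card : ℝ) ≤ (x : ℝ) ^ A) →
    ∀ (M : Fin r → ℤ) (L : Fin r → ℕ), (∀ j, N ≤ L j) →
      ({m : Fin r → ℤ | (∀ j, M j ≤ m j ∧ m j < M j + L j) ∧ ¬ ∀ x : ℕ, Real.log N ^ C ≤ x → (x : ℝ) ≤ (N : ℝ) ^ κ → ∀ c ∈ H x,
        (1 / 2 : ℝ) ^ r * ({p : ℕ | p ≤ x ∧ p.Prime ∧ p ≠ 2 ∧ p ∈ c.2 ∧ ∀ j, ¬ p ∣ zeros p (c.1.2 j).2}.ncard : ℝ) - (x : ℝ) ^ (1 / 2 + δ) ≤
          ({p : ℕ | p ≤ x ∧ p.Prime ∧ p ≠ 2 ∧ p ∈ c.2 ∧ (∀ j, ¬ p ∣ zeros p (c.1.2 j).2) ∧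
            ∀ j, ¬ p ∣ points p (c.1.2 j).1 (c.1.2 j).2 (m j)}.ncard : ℝ)}.ncard : ℝ) ≤
      (N : ℝ) ^ (-κ) * ∏ j, (L j : ℝ) := by
  classical
  have hle : (1 / 2 : ℝ) ^ r ≤ 1 := pow_le_one₀ (by norm_num) (by norm_num)
  obtain ⟨κ, C, hκ, hC, N₀, HH⟩ := Pool.Agent.X35.OR.dens_box r δ A (1 - (1 / 2 : ℝ) ^ r) 0 hδ (by linarith) le_rfl
  refine ⟨κ, C, hκ, hC, N₀, fun N hN H hH M L hL => ?_⟩
  have hmain := HH N hN (Σ n : Fin r → ℕ, ∀ j, MvPolynomial (Fin (n j + 1)) ℤ × MvPolynomial (Fin (n j + 1)) ℤ) H hH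
    (fun c p => ∀ j, ¬ p ∣ Pool.Agent.X35.OR.zrs p (c.2 j).2)
    (fun c p m => ¬ ∀ j, ¬ p ∣ Pool.Agent.X35.OR.pts p (c.2 j).1 (c.2 j).2 (m j))
    (fun x c _ p _ _ _ => Pool.Agent.X35.OR.dcs_per p r (fun j => c.1.1 j + 1) (fun j => (c.1.2 j).1) (fun j => (c.1.2 j).2))
    (fun x c hc p hp h2 hR => by
      have h1 := Pool.Agent.X35.OR.prob_dcs p r hp h2 (fun j => c.1.1 j + 1) (fun j => by omega) (fun j => (c.1.2 j).1) (fun j => (c.1.2 j).2) hR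
      rw [zero_div, add_zero]
      exact h1) M L hL
  refine le_trans (le_of_eq ?_) hmain
  have e1 : ∀ (x : ℕ) (c : (Σ n : Fin r → ℕ, ∀ j, MvPolynomial (Fin (n j + 1)) ℤ × MvPolynomial (Fin (n j + 1)) ℤ) × Set ℕ),
      ({p : ℕ | p ≤ x ∧ p.Prime ∧ p ≠ 2 ∧ p ∈ c.2 ∧ ∀ j, ¬ p ∣ zeros p (c.1.2 j).2}.ncard : ℝ) =
      ((Pool.Agent.X35.OR.sel x c.2 (fun p => ∀ j, ¬ p ∣ Pool.Agent.X35.OR.zrs p (c.1.2 j).2)).card : ℝ) := by
    intro x c
    rw [← Set.ncard_coe_finset]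
    congr 2
    ext p
    rw [mem_coe, Pool.Agent.X35.OR.mem_sel, Set.mem_ofPred_eq]
    rfl
  have e2 : ∀ (x : ℕ) (c : (Σ n : Fin r → ℕ, ∀ j, MvPolynomial (Fin (n j + 1)) ℤ × MvPolynomial (Fin (n j + 1)) ℤ) × Set ℕ) (m : Fin r → ℤ),
      ({p : ℕ | p ≤ x ∧ p.Prime ∧ p ≠ 2 ∧ p ∈ c.2 ∧ (∀ j, ¬ p ∣ zeros p (c.1.2 j).2) ∧
            ∀ j, ¬ p ∣ points p (c.1.2 j).1 (c.1.2 j).2 (m j)}.ncard : ℝ) =
      ((Pool.Agent.X35.OR.sel x c.2 (fun p => (∀ j, ¬ p ∣ Pool.Agent.X35.OR.zrs p (c.1.2 j).2) ∧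
        ¬ ¬ ∀ j, ¬ p ∣ Pool.Agent.X35.OR.pts p (c.1.2 j).1 (c.1.2 j).2 (m j))).card : ℝ) := by
    intro x c m
    rw [← Set.ncard_coe_finset]
    congr 2
    ext p
    rw [mem_coe, Pool.Agent.X35.OR.mem_sel, Set.mem_ofPred_eq, not_not]
    rfl
  simp only [e1, e2, sub_sub_cancel]

end Pool.Agent.Results.MP_adc574_ag.ProductsInBoxes
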