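import Pool.Agent.X35.OR.ConsecD
import Pool.Agent.X35.OR.DC

/-!
# Strings of `s` consecutive primes of weakly ordinary reduction of Calabi–Yau double covers `w² = f + m g²`, for all integers `m` near a thin sequence
-/

set_option autoImplicit false

namespace Pool.Agent.Results.MP_adc574_ag.StringsOfPrimes

open Finset MvPolynomial

/-- The number of the solutions `(x, w)` modulo `p` of `w ^ 2 = f (x_1, ..., x_n) + m g (x_1, ..., x_n) ^ 2`. If `f` is a form of degree `2 n` and `g` a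
form of degree `n`, it is `1 + (p - 1) #X (𝔽_p)`, where `X : w ^ 2 = f + m g ^ 2` is the double cover of `ℙ ^ (n - 1)`. -/
noncomputable def points (p : ℕ) {n : ℕ} (f g : MvPolynomial (Fin n) ℤ) (m : ℤ) : ℕ :=
  Nat.card {P : (Fin n → ZMod p) × ZMod p // P.2 ^ 2 = aeval P.1 f + (m : ZMod p) * (aeval P.1 g) ^ 2}

/-- The number of the solutions modulo `p` of `g (x_1, ..., x_n) = 0`. If `g` is a form of degree `n`, it is `1 + (p - 1) #Y (𝔽_p)` for the
hypersurface `Y : g = 0` in `ℙ ^ (n - 1)`. -/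
noncomputable def zeros (p : ℕ) {n : ℕ} (g : MvPolynomial (Fin n) ℤ) : ℕ :=
  Nat.card {x : Fin n → ZMod p // aeval x g = 0}

/-- **Strings of weakly ordinary primes.** Let `s, B ≥ 1` and `δ > 0`. There are `κ > 0` and `C > 0` such that for all
`v_i ≥ 1` with `∑ v_i ^ (-t) < ∞` for all `t > τ` (`τ ≥ 0`), all `θ < 1` and every strictly increasing sequence `q_0, q_1, ...` of odd primes with
`q_k ≤ (k + 2) ^ B` (for `B = 4` for instance the sequence of all odd primes) there is a set `E` of reals of Hausdorff dimension at most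
`(1 - κ + τ) / (1 - θ)` such that for every real `α > 0` outside `E` the following holds for ALL `n_0, ..., n_{s-1} ≥ 1` and ALL polynomials `f_j`, `g_j` in `n_j`
variables with integral coefficients (written with `n_j + 1` variables, `n_j ≥ 0`).

There is `i₀` such that for all `i ≥ i₀`, ALL integers `m` with `||m| - α v_i| ≤ v_i ^ θ` and ALL integers `K` with
`(log |m|) ^ C ≤ K ≤ |m| ^ κ`: the number of the `k < K` such that for all `j < s` neither the number of the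
solutions of `g_j = 0` nor that of `w ^ 2 = f_j + m g_j ^ 2` modulo `q_{k + j}` is divisible by `q_{k + j}` is at least `2 ^ (- s)` times the number of the
`k < K` such that for all `j < s` the number of the solutions of `g_j = 0` modulo `q_{k + j}` is not divisible by `q_{k + j}`, up to an error of
at most `K ^ (1 / 2 + δ)`. -/
theorem result (s B : ℕ) (hs : 1 ≤ s) (hB : 1 ≤ B) (δ : ℝ) (hδ : 0 < δ) : ∃ κ C : ℝ, 0 < κ ∧ 0 < C ∧
    ∀ (v : ℕ → ℝ) (τ θ : ℝ), (∀ i, 1 ≤ v i) → 0 ≤ τ → θ < 1 → (∀ t : ℝ, τ < t → Summable (fun i => v i ^ (-t))) →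
    ∀ q : ℕ → ℕ, StrictMono q → (∀ k, (q k).Prime ∧ q k ≠ 2 ∧ q k ≤ (k + 2) ^ B) →
    ∃ E : Set ℝ, dimH E ≤ ENNReal.ofReal ((1 - κ + τ) / (1 - θ)) ∧ ∀ α : ℝ, 0 < α → α ∉ E →
      ∀ (n : Fin s → ℕ) (f g : ∀ j : Fin s, MvPolynomial (Fin (n j + 1)) ℤ), ∃ i₀ : ℕ,
      ∀ i : ℕ, i₀ ≤ i → ∀ m : ℤ, |(|(m : ℝ)|) - α * v i| ≤ v i ^ θ →
        ∀ K : ℕ, Real.log |(m : ℝ)| ^ C ≤ K → (K : ℝ) ≤ |(m : ℝ)| ^ κ →
          (1 / 2 : ℝ) ^ s * ({k : ℕ | k < K ∧ ∀ j : Fin s, ¬ q (k + j) ∣ zeros (q (k + j)) (g j)}.ncard : ℝ) - (K : ℝ) ^ (1 / 2 + δ) ≤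
            ({k : ℕ | k < K ∧ ∀ j : Fin s, ¬ q (k + j) ∣ zeros (q (k + j)) (g j) ∧ ¬ q (k + j) ∣ points (q (k + j)) (f j) (g j) m}.ncard : ℝ) := by
  classical
  obtain ⟨κ, C, hκ, hC, HH⟩ := Pool.Agent.X35.OR.consec_dens s B hs hB δ hδ
  refine ⟨κ, C, hκ, hC, fun v τ θ hv1 hτ hθ hv q hmono hq => ?_⟩
  have hcnt : ∀ k : ℕ, Countable (MvPolynomial (Fin (k + 1)) ℤ) := fun k => Pool.Agent.X35.GV.countable_mv (k + 1)
  have hcnt2 : Countable (Σ n : Fin s → ℕ, ∀ j : Fin s, MvPolynomial (Fin (n j + 1)) ℤ × MvPolynomial (Fin (n j + 1)) ℤ) := by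
    have : ∀ n : Fin s → ℕ, Countable (∀ j : Fin s, MvPolynomial (Fin (n j + 1)) ℤ × MvPolynomial (Fin (n j + 1)) ℤ) := fun n => by
      have : ∀ j : Fin s, Countable (MvPolynomial (Fin (n j + 1)) ℤ × MvPolynomial (Fin (n j + 1)) ℤ) := fun j => by
        have := hcnt (n j)
        infer_instance
      infer_instance
    infer_instance
  obtain ⟨E, hE1, hE2⟩ := HH v τ θ hv1 hτ hθ hv
    (Σ n : Fin s → ℕ, ∀ j : Fin s, MvPolynomial (Fin (n j + 1)) ℤ × MvPolynomial (Fin (n j + 1)) ℤ)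
    (fun _ => q) (fun _ => ⟨hmono, fun k => ⟨(hq k).1, (hq k).2.2⟩⟩)
    (fun c j p m => ¬ p ∣ Pool.Agent.X35.OR.zrs p (c.2 j).2 ∧ ¬ p ∣ Pool.Agent.X35.OR.pts p (c.2 j).1 (c.2 j).2 m)
    (fun c j p => if p ∣ Pool.Agent.X35.OR.zrs p (c.2 j).2 then 0 else 1 / 2) (fun _ => 0) (fun _ => le_rfl)
    (fun c j k => by
      split_ifs
      · exact ⟨le_rfl, zero_le_one⟩
      · norm_num)
    (by
      intro c j k m m' h
      rw [Pool.Agent.X35.OR.pts_mod (q k) (c.2 j).1 (c.2 j).2 m m' h])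
    (by
      intro c j k
      have hf : Fact (q k).Prime := ⟨(hq k).1⟩
      by_cases hz : q k ∣ Pool.Agent.X35.OR.zrs (q k) (c.2 j).2
      · rw [if_pos hz, zero_mul, sub_zero]
        exact Nat.cast_nonneg _
      · rw [if_neg hz, sub_zero]
        have h5 := Pool.Agent.X35.OR.bad_dc (p := q k) (hq k).2.1 (by omega : 1 ≤ c.1 j + 1) (c.2 j).1 (c.2 j).2 hz
        have h6 := card_filter_add_card_filter_not (s := range (q k)) (p := fun m : ℕ => q k ∣ Pool.Agent.X35.OR.pts (q k) (c.2 j).1 (c.2 j).2 (m : ℤ))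
        rw [card_range] at h6
        have h7 : q k ≤ 2 * ((range (q k)).filter (fun m : ℕ => ¬ q k ∣ Pool.Agent.X35.OR.pts (q k) (c.2 j).1 (c.2 j).2 (m : ℤ))).card := by omega
        have h8 : (q k : ℝ) ≤ 2 * (((range (q k)).filter (fun m : ℕ => ¬ q k ∣ Pool.Agent.X35.OR.pts (q k) (c.2 j).1 (c.2 j).2 (m : ℤ))).card : ℝ) := by
          exact_mod_cast h7
        have h9 : 1 / 2 * (q k : ℝ) ≤ (((range (q k)).filter (fun m : ℕ => ¬ q k ∣ Pool.Agent.X35.OR.pts (q k) (c.2 j).1 (c.2 j).2 (m : ℤ))).card : ℝ) := by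
          linarith
        refine h9.trans (le_of_eq ?_)
        congr 2
        ext m
        simp only [mem_filter]
        tauto)
  refine ⟨E, hE1, fun α hα hαE n f g => ?_⟩
  obtain ⟨i₀, hi₀⟩ := hE2 α hα hαE ⟨n, fun j => (f j, g j)⟩
  refine ⟨i₀, fun i hi m hm K hK1 hK2 => ?_⟩
  have hmain := hi₀ i hi m hm K hK1 hK2
  have e1 : {k : ℕ | k < K ∧ ∀ j : Fin s, ¬ q (k + j) ∣ zeros (q (k + j)) (g j)} =
      (((range K).filter (fun k => ∀ j : Fin s, ¬ q (k + j) ∣ zeros (q (k + j)) (g j)) : Finset ℕ) : Set ℕ) := by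
    ext k
    rw [mem_coe, mem_filter, mem_range, Set.mem_ofPred_eq]
  have e2 : {k : ℕ | k < K ∧ ∀ j : Fin s, ¬ q (k + j) ∣ zeros (q (k + j)) (g j) ∧ ¬ q (k + j) ∣ points (q (k + j)) (f j) (g j) m} =
      (((range K).filter (fun k => ∀ j : Fin s, ¬ q (k + j) ∣ zeros (q (k + j)) (g j) ∧ ¬ q (k + j) ∣ points (q (k + j)) (f j) (g j) m) :
        Finset ℕ) : Set ℕ) := by
    ext k
    rw [mem_coe, mem_filter, mem_range, Set.mem_ofPred_eq]
  rw [e1, e2, Set.ncard_coe_finset, Set.ncard_coe_finset]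
  have e3 : ∑ k ∈ range K, ∏ j : Fin s, (if q (k + j) ∣ Pool.Agent.X35.OR.zrs (q (k + j)) (g j) then (0 : ℝ) else 1 / 2) =
      (1 / 2 : ℝ) ^ s * (((range K).filter (fun k => ∀ j : Fin s, ¬ q (k + j) ∣ zeros (q (k + j)) (g j))).card : ℝ) := by
    rw [card_filter]
    push_cast
    rw [mul_sum]
    apply sum_congr rfl
    intro k _
    by_cases h : ∀ j : Fin s, ¬ q (k + j) ∣ zeros (q (k + j)) (g j)
    · rw [if_pos h, mul_one]
      have h1 : ∀ j : Fin s, (if q (k + j) ∣ Pool.Agent.X35.OR.zrs (q (k + j)) (g j) then (0 : ℝ) else 1 / 2) = 1 / 2 := fun j => if_neg (h j)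
      rw [prod_congr rfl (fun j _ => h1 j), prod_const, card_univ, Fintype.card_fin]
    · rw [if_neg h, mul_zero]
      push Not at h
      obtain ⟨j, hj⟩ := h
      apply prod_eq_zero (mem_univ j)
      exact if_pos hj
  rw [← e3]
  refine hmain.trans (le_of_eq ?_)
  congr 2
  ext k
  simp only [mem_filter]
  rfl

end Pool.Agent.Results.MP_adc574_ag.StringsOfPrimes
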